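import Pool.Agent.Run7.h306.WA2
import Pool.Agent.E8helper14.PA.Fin

/-!
# The integral matrices which do not give a group with closure of maximal rank: a rational hypersurface
-/

set_option autoImplicit false

open Module Pool.Agent.E8helper40.PC Pool.Agent.E8helper14.PA

namespace Run7.h469.PA

/-- The polynomial `∑_J c_J ∏_i k_{i, J(i)}`, where `J` runs through the maps from `{1, …, m}` to `{1, …, N}`: it is homogeneous
of degree one in every row of the matrix `k`. -/
def form {R : Type} [CommRing R] {m N : ℕ} (c : (Fin m → Fin N) → ℤ) (k : Fin m → Fin N → R) : R :=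
  ∑ J : Fin m → Fin N, (c J : R) * ∏ i, k i (J i)

theorem form_cast {R : Type} [CommRing R] {m N : ℕ} (c : (Fin m → Fin N) → ℤ) (k : Fin m → Fin N → ℤ) :
    form c (fun i j => (k i j : R)) = ((form c k : ℤ) : R) := by
  unfold form
  push_cast
  rfl

theorem form_smul {m N : ℕ} (c : (Fin m → Fin N) → ℤ) (k : Fin m → Fin N → ℝ) (t : ℝ) :
    form c (fun i j => t * k i j) = t ^ m * form c k := by
  unfold form
  rw [Finset.mul_sum]
  refine Finset.sum_congr rfl fun J _ => ?_
  rw [Finset.prod_mul_distrib, Finset.prod_const, Finset.card_univ, Fintype.card_fin]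
  ring

/-- A determinant which is multilinear in the rows. -/
theorem det_icomb {F : Type} [Field F] [CharZero F] {m N n : ℕ} (φ : Fin N → Fin n → F) (b : Fin m → Fin n)
    (k : Fin m → Fin N → ℤ) :
    (Matrix.of fun i l => (icomb φ (k i)) (b l)).det =
      ∑ J : Fin m → Fin N, ((∏ i, k i (J i) : ℤ) : F) * (Matrix.of fun i l => φ (J i) (b l)).det := by
  have h1 : (Matrix.of fun i l => (icomb φ (k i)) (b l)) =
      fun i => ∑ j : Fin N, (k i j : F) • (fun l => φ j (b l)) := by
    funext i l
    simp only [Matrix.of_apply, icomb, Finset.sum_apply, Pi.smul_apply, smul_eq_mul]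
    refine Finset.sum_congr rfl fun j _ => ?_
    rw [zsmul_eq_mul]
  have h2 := (Matrix.detRowAlternating (n := Fin m) (R := F)).toMultilinearMap.map_sum
    (fun (i : Fin m) (j : Fin N) => (k i j : F) • (fun l => φ j (b l)))
  have h3 : (Matrix.of fun i l => (icomb φ (k i)) (b l)).det =
      (Matrix.detRowAlternating (n := Fin m) (R := F)).toMultilinearMap
        (fun i => ∑ j : Fin N, (k i j : F) • (fun l => φ j (b l))) := by
    rw [h1]
    rfl
  rw [h3, h2]
  refine Finset.sum_congr rfl fun J _ => ?_
  have h4 := (Matrix.detRowAlternating (n := Fin m) (R := F)).toMultilinearMap.map_smul_univ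
    (fun i => (k i (J i) : F)) (fun i => fun l => φ (J i) (b l))
  rw [h4, smul_eq_mul]
  push_cast
  rfl

/-- If the `φ_j` span a space of dimension at least `m` then, for some `m` coordinates, the projections of some `m` of them are
linearly independent. -/
theorem exists_minor {F : Type} [Field F] {m N n : ℕ} (φ : Fin N → Fin n → F)
    (h : m ≤ finrank F (Submodule.span F (Set.range φ))) :
    ∃ (J : Fin m → Fin N) (b : Fin m → Fin n), (Matrix.of fun i l => φ (J i) (b l)).det ≠ 0 := by
  classical
  -- `m` independent members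
  obtain ⟨J, hJ⟩ : ∃ J : Fin m → Fin N, LinearIndependent F (fun i => φ (J i)) := by
    obtain ⟨b, hb1, hb2, hb3⟩ := exists_linearIndependent F (Set.range φ)
    have hbfin : b.Finite := (Set.finite_range φ).subset hb1
    have hcard : m ≤ hbfin.toFinset.card := by
      have h1 : finrank F (Submodule.span F b) = hbfin.toFinset.card := by
        have := hbfin.fintype
        rw [finrank_span_set_eq_card hb3]
        congr 1
        ext x
        simp
      rw [← h1, hb2]
      exact h
    obtain ⟨s, hs1, hs2⟩ := Finset.exists_subset_card_eq hcard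
    have e := (s.equivFinOfCardEq hs2).symm
    have hmem : ∀ i : Fin m, ((e i : (Fin n → F))) ∈ b := fun i => by
      have := hs1 (e i).2
      simpa using this
    choose J hJ using fun i => hb1 (hmem i)
    refine ⟨J, ?_⟩
    have h2 : (fun i => φ (J i)) = (fun x : b => (x : Fin n → F)) ∘ fun i : Fin m => ⟨(e i : (Fin n → F)), hmem i⟩ := by
      funext i
      exact hJ i
    rw [h2]
    refine hb3.comp _ ?_
    intro i j hij
    simp only [Subtype.mk.injEq] at hij
    exact e.injective (Subtype.ext hij)
  -- `m` coordinates: independent columns of the matrix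
  have hr : (Matrix.of fun i l => φ (J i) l : Matrix (Fin m) (Fin n) F).rank = m := by
    have := hJ.rank_matrix (M := (Matrix.of fun i l => φ (J i) l : Matrix (Fin m) (Fin n) F))
    rw [this, Fintype.card_fin]
  have hc : m ≤ finrank F (Submodule.span F (Set.range fun (l : Fin n) (i : Fin m) => φ (J i) l)) := by
    have h1 := Matrix.rank_eq_finrank_span_cols (Matrix.of fun i l => φ (J i) l : Matrix (Fin m) (Fin n) F)
    rw [hr] at h1
    exact h1.le
  obtain ⟨b, hb1, hb2, hb3⟩ := exists_linearIndependent F (Set.range fun (l : Fin n) (i : Fin m) => φ (J i) l)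
  have hbfin : b.Finite := (Set.finite_range _).subset hb1
  have hcard : m ≤ hbfin.toFinset.card := by
    have h1 : finrank F (Submodule.span F b) = hbfin.toFinset.card := by
      have := hbfin.fintype
      rw [finrank_span_set_eq_card hb3]
      congr 1
      ext x
      simp
    rw [← h1, hb2]
    exact hc
  obtain ⟨s, hs1, hs2⟩ := Finset.exists_subset_card_eq hcard
  have e := (s.equivFinOfCardEq hs2).symm
  have hmem : ∀ i : Fin m, ((e i : (Fin m → F))) ∈ b := fun i => by
    have := hs1 (e i).2
    simpa using this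
  choose c hcc using fun i => hb1 (hmem i)
  refine ⟨J, c, ?_⟩
  have hli : LinearIndependent F fun (l : Fin m) (i : Fin m) => φ (J i) (c l) := by
    have h2 : (fun (l : Fin m) (i : Fin m) => φ (J i) (c l)) =
        (fun x : b => (x : Fin m → F)) ∘ fun i : Fin m => ⟨(e i : (Fin m → F)), hmem i⟩ := by
      funext l
      exact hcc l
    rw [h2]
    refine hb3.comp _ ?_
    intro i j hij
    simp only [Subtype.mk.injEq] at hij
    exact e.injective (Subtype.ext hij)
  have hu : IsUnit (Matrix.of fun (l : Fin m) (i : Fin m) => φ (J i) (c l) : Matrix (Fin m) (Fin m) F) :=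
    Matrix.linearIndependent_rows_iff_isUnit.1 hli
  have ht : (Matrix.of fun (i : Fin m) (l : Fin m) => φ (J i) (c l) : Matrix (Fin m) (Fin m) F) =
      (Matrix.of fun (l : Fin m) (i : Fin m) => φ (J i) (c l) : Matrix (Fin m) (Fin m) F).transpose := rfl
  rw [ht, Matrix.det_transpose]
  exact ((Matrix.isUnit_iff_isUnit_det _).1 hu).ne_zero

/-- Rational coefficients from coefficients in an extension field. -/
theorem exists_form {F : Type} [Field F] [CharZero F] {m N : ℕ} (d : (Fin m → Fin N) → F) (hd : ∃ J, d J ≠ 0) :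
    ∃ c : (Fin m → Fin N) → ℤ, c ≠ 0 ∧ ∀ k : Fin m → Fin N → ℤ, form c k ≠ 0 →
      ∑ J, ((∏ i, k i (J i) : ℤ) : F) * d J ≠ 0 := by
  classical
  obtain ⟨J₀, hJ₀⟩ := hd
  obtain ⟨f, hf⟩ : ∃ f : Module.Dual ℚ F, f (d J₀) ≠ 0 := by
    by_contra hcon
    push Not at hcon
    exact hJ₀ ((Module.forall_dual_apply_eq_zero_iff ℚ (d J₀)).1 hcon)
  obtain ⟨b, hb⟩ := IsLocalization.exist_integer_multiples_of_finite (nonZeroDivisors ℤ) (fun J => f (d J))
  choose c hc using hb
  have hb0 : ((b : ℤ) : ℚ) ≠ 0 := by
    exact_mod_cast nonZeroDivisors.coe_ne_zero b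
  have hcq : ∀ J, (c J : ℚ) = ((b : ℤ) : ℚ) * f (d J) := by
    intro J
    have := hc J
    simpa [zsmul_eq_mul] using this
  refine ⟨c, fun h0 => ?_, fun k hk hzero => hk ?_⟩
  · have h1 := hcq J₀
    rw [h0] at h1
    simp only [Pi.zero_apply, Int.cast_zero] at h1
    rcases mul_eq_zero.1 h1.symm with h2 | h2
    · exact hb0 h2
    · exact hf h2
  · have h1 : f (∑ J, ((∏ i, k i (J i) : ℤ) : F) * d J) = ∑ J, ((∏ i, k i (J i) : ℤ) : ℚ) * f (d J) := by
      rw [map_sum]
      refine Finset.sum_congr rfl fun J _ => ?_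
      have h2 : ((∏ i, k i (J i) : ℤ) : F) * d J = ((∏ i, k i (J i) : ℤ) : ℚ) • d J := by
        rw [Algebra.smul_def]
        simp
      rw [h2, map_smul, smul_eq_mul]
    rw [hzero, map_zero] at h1
    have h3 : ((form c k : ℤ) : ℚ) = 0 := by
      unfold form
      push_cast
      have h4 : ∀ J : Fin m → Fin N, ((c J : ℤ) : ℚ) * ∏ i, (k i (J i) : ℚ) =
          ((b : ℤ) : ℚ) * (((∏ i, k i (J i) : ℤ) : ℚ) * f (d J)) := by
        intro J
        rw [hcq J]
        push_cast
        ring
      rw [Finset.sum_congr rfl fun J _ => h4 J, ← Finset.mul_sum, ← h1, mul_zero]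
    exact_mod_cast h3

end Run7.h469.PA
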