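import Pool.Agent.Run7.h469.PA.Hyp

/-!
# Groups with `m` generators: the exceptional matrices, cones and powers
-/

set_option autoImplicit false

open Module Pool.Agent.E8helper40.PC Pool.Agent.E8helper14.PA

namespace Run7.h469.PA

variable {p : ℕ} [Fact p.Prime] {n : ℕ} (A : SimpleAbelianVariety p n)

/-- For some integral `m × N` matrix `k` and some torsion points `t_i` the closure of the group generated by the points
`∑_j k_ij e_j + t_i`, `i = 1, …, m`, is isomorphic to `ℤ_p ^ m` modulo finite torsion. -/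
def OneGood {N : ℕ} (e : Fin N → A.Pts) (m : ℕ) : Prop :=
  ∃ (k : Fin m → Fin N → ℤ) (t : Fin m → A.Pts), (∀ i, IsOfFinAddOrder (t i)) ∧
    HasZpRank p (closure A (tupleGroup A e t k)) m

/-- There are integers `c_J`, not all `0`, such that all integral matrices `k` with `∑_J c_J ∏_i k_{i, J(i)} ≠ 0` are good. -/
def Hypersurface {N : ℕ} (e : Fin N → A.Pts) (m : ℕ) : Prop :=
  ∃ c : (Fin m → Fin N) → ℤ, c ≠ 0 ∧ ∀ k : Fin m → Fin N → ℤ, form c k ≠ 0 → GoodTuple A e k

/-- For all real matrices `α` such that the `N ^ m` products `∏_i α_{i, J(i)}` are linearly independent over `ℚ` there is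
`ε > 0` such that all integral matrices `k` with `|k - t α| ≤ ε t` for some real `t > 0` are good. -/
def Cones {N : ℕ} (e : Fin N → A.Pts) (m : ℕ) : Prop :=
  ∀ α : Fin m → Fin N → ℝ, LinearIndependent ℚ (fun J : Fin m → Fin N => ∏ i, α i (J i)) →
    ∃ ε : ℝ, 0 < ε ∧ ∀ (t : ℝ) (k : Fin m → Fin N → ℤ), 0 < t → (∀ i j, |(k i j : ℝ) - t * α i j| ≤ ε * t) →
      GoodTuple A e k

/-- For all but at most `N ^ m - 1` integers `T` the matrix with the entries `T ^ (j N ^ i)`, `0 ≤ i < m`, `0 ≤ j < N`, is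
good. -/
def Powers {N : ℕ} (e : Fin N → A.Pts) (m : ℕ) : Prop :=
  {T : ℤ | ¬ GoodTuple A e (fun (i : Fin m) (j : Fin N) => T ^ ((j : ℕ) * N ^ (i : ℕ)))}.Finite ∧
  {T : ℤ | ¬ GoodTuple A e (fun (i : Fin m) (j : Fin N) => T ^ ((j : ℕ) * N ^ (i : ℕ)))}.ncard ≤ N ^ m - 1

theorem rank_le {N : ℕ} (e : Fin N → A.Pts) (m : ℕ) (h : OneGood A e m) :
    m ≤ finrank ℚ_[p] (Submodule.span ℚ_[p] (Set.range (logs A e))) := by
  obtain ⟨k₀, t₀, ht₀, h₀⟩ := h
  have h2 := rank_closure A _ h₀
  refine h2.le.trans (Submodule.finrank_mono ?_)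
  rw [tupleGroup, logSpan_closure, Submodule.span_le]
  rintro _ ⟨_, ⟨i, rfl⟩, rfl⟩
  change A.log (A.incl (∑ j, k₀ i j • e j + t₀ i)) ∈ Submodule.span ℚ_[p] (Set.range (logs A e))
  rw [log_point A e (k₀ i) (ht₀ i), icomb]
  refine Submodule.sum_mem _ fun j _ => ?_
  exact Submodule.smul_of_tower_mem _ _ (Submodule.subset_span ⟨j, rfl⟩)

theorem hypersurface {N : ℕ} (e : Fin N → A.Pts) (m : ℕ) (h : OneGood A e m) : Hypersurface A e m := by
  obtain ⟨J₀, b, hdet⟩ := exists_minor (logs A e) (rank_le A e m h)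
  obtain ⟨c, hc, hform⟩ := exists_form (fun J : Fin m → Fin N =>
    (Matrix.of fun i l => logs A e (J i) (b l) : Matrix (Fin m) (Fin m) ℚ_[p]).det) ⟨J₀, hdet⟩
  refine ⟨c, hc, fun k hk => good_of_independent A e k ?_⟩
  have h1 := hform k hk
  rw [← det_icomb] at h1
  have h2 : LinearIndependent ℚ_[p] fun (i : Fin m) (l : Fin m) => (icomb (logs A e) (k i)) (b l) := by
    have h3 : IsUnit (Matrix.of fun i l => (icomb (logs A e) (k i)) (b l) : Matrix (Fin m) (Fin m) ℚ_[p]) := by
      rw [Matrix.isUnit_iff_isUnit_det]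
      exact isUnit_iff_ne_zero.2 h1
    exact Matrix.linearIndependent_rows_iff_isUnit.2 h3
  let f : (Fin n → ℚ_[p]) →ₗ[ℚ_[p]] (Fin m → ℚ_[p]) := LinearMap.funLeft ℚ_[p] ℚ_[p] b
  refine LinearIndependent.of_comp f ?_
  exact h2

/-- the form does not vanish at `α` if the products are independent -/
theorem form_ne_zero {m N : ℕ} {c : (Fin m → Fin N) → ℤ} (hc : c ≠ 0) {α : Fin m → Fin N → ℝ}
    (hα : LinearIndependent ℚ (fun J : Fin m → Fin N => ∏ i, α i (J i))) : form c α ≠ 0 := by
  intro h0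
  apply hc
  funext J
  have h1 := Fintype.linearIndependent_iff.1 hα (fun J => (c J : ℚ)) (by
    rw [← h0]
    unfold form
    refine Finset.sum_congr rfl fun J _ => ?_
    rw [Rat.smul_def, Rat.cast_intCast]) J
  exact_mod_cast h1

theorem cones {N : ℕ} (e : Fin N → A.Pts) (m : ℕ) (h : Hypersurface A e m) : Cones A e m := by
  obtain ⟨c, hc, hgood⟩ := h
  intro α hα
  have h1 := form_ne_zero hc hα
  have hcont : Continuous fun β : Fin m → Fin N → ℝ => form c β := by
    unfold form
    fun_prop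
  have hopen : IsOpen {β : Fin m → Fin N → ℝ | form c β ≠ 0} := isOpen_ne_fun hcont continuous_const
  obtain ⟨δ, hδ, hball⟩ := Metric.isOpen_iff.1 hopen α h1
  refine ⟨δ / 2, by positivity, fun t k ht hk => hgood k fun h0 => ?_⟩
  have hβ : (fun i j => (k i j : ℝ) / t) ∈ Metric.ball α δ := by
    rw [Metric.mem_ball, dist_pi_lt_iff hδ]
    intro i
    rw [dist_pi_lt_iff hδ]
    intro j
    rw [Real.dist_eq]
    have h2 : (k i j : ℝ) / t - α i j = ((k i j : ℝ) - t * α i j) / t := by
      field_simp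
    rw [h2, abs_div, abs_of_pos ht, div_lt_iff₀ ht]
    have := hk i j
    nlinarith
  have h3 : form c (fun i j => (k i j : ℝ) / t) ≠ 0 := hball hβ
  apply h3
  have h4 : form c (fun i j => (k i j : ℝ)) = 0 := by
    rw [form_cast, h0, Int.cast_zero]
  have h5 : (fun i j => (k i j : ℝ)) = fun i j => t * ((k i j : ℝ) / t) := by
    funext i j
    field_simp
  rw [h5, form_smul] at h4
  rcases mul_eq_zero.1 h4 with h6 | h6
  · exact absurd h6 (pow_ne_zero _ ht.ne')
  · exact h6

open Polynomial in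
theorem powers {N : ℕ} (e : Fin N → A.Pts) (m : ℕ) (h : Hypersurface A e m) : Powers A e m := by
  classical
  obtain ⟨c, hc, hgood⟩ := h
  let q : ℤ[X] := ∑ J : Fin m → Fin N, C (c J) * X ^ ((finFunctionFinEquiv J : Fin (N ^ m)) : ℕ)
  have hcoef : ∀ J₀ : Fin m → Fin N, q.coeff ((finFunctionFinEquiv J₀ : Fin (N ^ m)) : ℕ) = c J₀ := by
    intro J₀
    simp only [q, finset_sum_coeff, coeff_C_mul_X_pow]
    rw [Finset.sum_eq_single J₀]
    · simp
    · intro J _ hJ
      rw [if_neg]
      intro heq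
      apply hJ
      exact finFunctionFinEquiv.injective (Fin.ext heq.symm)
    · intro hJ
      exact absurd (Finset.mem_univ _) hJ
  have hq0 : q ≠ 0 := by
    intro h0
    apply hc
    funext J
    rw [← hcoef J, h0, coeff_zero]
    rfl
  have hdeg : q.natDegree ≤ N ^ m - 1 := by
    refine natDegree_sum_le_of_forall_le _ _ fun J _ => ?_
    refine (natDegree_C_mul_X_pow_le _ _).trans ?_
    have := (finFunctionFinEquiv J : Fin (N ^ m)).isLt
    omega
  have heval : ∀ T : ℤ, q.eval T = form c (fun (i : Fin m) (j : Fin N) => T ^ ((j : ℕ) * N ^ (i : ℕ))) := by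
    intro T
    simp only [q, eval_finset_sum, eval_mul, eval_C, eval_pow, eval_X, form]
    refine Finset.sum_congr rfl fun J _ => ?_
    rw [finFunctionFinEquiv_apply, Finset.prod_pow_eq_pow_sum]
    simp
  have hsub : {T : ℤ | ¬ GoodTuple A e (fun (i : Fin m) (j : Fin N) => T ^ ((j : ℕ) * N ^ (i : ℕ)))} ⊆
      (q.roots.toFinset : Set ℤ) := by
    intro T hT
    rw [Finset.mem_coe, Multiset.mem_toFinset, mem_roots hq0, IsRoot.def, heval]
    by_contra hne
    exact hT (hgood _ hne)
  refine ⟨(Finset.finite_toSet _).subset hsub, ?_⟩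
  refine (Set.ncard_le_ncard hsub (Finset.finite_toSet _)).trans ?_
  rw [Set.ncard_coe_finset]
  exact (Multiset.toFinset_card_le _).trans ((card_roots' q).trans hdeg)

/-- groups with few generators, if there are many endomorphisms -/
theorem oneGood_of_endomorphisms (F : Subfield A.End) (hF : Commutative A F) {N : ℕ} (hN : 0 < N) (e : Fin N → A.Pts)
    (he : Independent A e) (hg : Generates A e) (m : ℕ) (hm : m ≤ degree A F) : OneGood A e m := by
  classical
  obtain ⟨s, hs, hcount⟩ := failures_generates A F hF e he hg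
  have hs1 : 1 ≤ s := by
    rcases Nat.eq_zero_or_pos s with h0 | h0
    · rw [h0, mul_zero] at hs
      omega
    · exact h0
  have h1 := hcount m m hm
  have h2 : failures A e m m < (box m N m).card := by
    rw [card_box]
    by_contra hcon
    push Not at hcon
    have hpos : 0 < (2 * m + 1) ^ (m * N) := by positivity
    have h3 : (2 * m + 1) ^ 1 ≤ (2 * m + 1) ^ (s * (finrank ℚ F + 1 - m)) := by
      apply Nat.pow_le_pow_right (by omega)
      have h4 : 1 ≤ finrank ℚ F + 1 - m := by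
        have : m ≤ finrank ℚ F := hm
        omega
      exact Nat.mul_le_mul hs1 h4
    have h5 := (Nat.mul_le_mul hcon h3).trans h1
    rw [pow_one, mul_comm] at h5
    have h6 := Nat.le_of_mul_le_mul_right h5 hpos
    omega
  obtain ⟨k, hk, hgood⟩ : ∃ k ∈ box m N m, GoodTuple A e k := by
    by_contra hcon
    push Not at hcon
    apply absurd h2
    rw [not_lt]
    unfold failures
    refine Finset.card_le_card fun k hk => ?_
    rw [Finset.mem_filter]
    exact ⟨hk, hcon k hk⟩
  exact ⟨k, fun _ => 0, fun _ => isOfFinAddOrder_iff_nsmul_eq_zero.2 ⟨1, one_pos, by simp⟩,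
    hgood _ fun _ => isOfFinAddOrder_iff_nsmul_eq_zero.2 ⟨1, one_pos, by simp⟩⟩

end Run7.h469.PA
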