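import Pool.Agent.Run7.h469.Ns
import Pool.Agent.Run7.h306.WA2
import Pool.Agent.E8helper14.PA.Fin

/-!
# Groups with `m` generators near generic subspaces
-/

set_option autoImplicit false

open Module Pool.Agent.E8helper40.PC Pool.Agent.E8helper14.PA TensorProduct
open Run7.h469.Ns (Near NearSubspaces near_thin toMat toMat_injective)

namespace Run7.h469.PA

theorem near_local {p : ℕ} [Fact p.Prime] {n : ℕ} (A : SimpleAbelianVariety p n) (F : Subfield A.End) (hF : Commutative A F)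
    {N : ℕ} (e : Fin N → A.Pts) (he : Independent A e) (hg : Generates A e) {f s : ℕ} (hf : degree A F = f) (hN : N = f * s)
    {m : ℕ} (hm1 : 1 ≤ m) (hm : m ≤ f) (h : ℕ) {θ : ℝ} (hθ0 : 0 ≤ θ) (hθ : θ < 1) :
    NearSubspaces m N h ((m : ℝ) * N * (h - 1) + (m * N - s * (f + 1 - m) + h) / (1 - θ)) θ (fun k => GoodTuple A e k) := by
  classical
  obtain ⟨s', hs', hcount⟩ := failures_generates A F hF e he hg
  have hf' : finrank ℚ F = f := hf
  rw [hf'] at hs' hcount
  have hss : s' = s := by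
    have hf0 : 0 < f := by omega
    have : f * s' = f * s := by rw [← hs', ← hN]
    exact Nat.eq_of_mul_eq_mul_left hf0 this
  subst hss
  set S : ℝ := (m : ℝ) * N - s' * (f + 1 - m) with hSdef
  have hexp : s' * (f + 1 - m) ≤ m * N := by
    rw [hN]
    have h1 : f + 1 - m ≤ f := by omega
    calc s' * (f + 1 - m) ≤ s' * f := Nat.mul_le_mul_left _ h1
      _ = 1 * (f * s') := by ring
      _ ≤ m * (f * s') := Nat.mul_le_mul_right _ hm1
  have hS : S = ((m * N - s' * (f + 1 - m) : ℕ) : ℝ) := by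
    rw [hSdef, Nat.cast_sub hexp]
    push_cast [Nat.cast_sub (by omega : m ≤ f + 1)]
    ring
  have hS0 : 0 ≤ S := by
    rw [hS]
    positivity
  have hfail : ∀ H : ℕ, (failures A e m H : ℝ) ≤ m * (2 * (H : ℝ) + 1) ^ S := by
    intro H
    have h1 := hcount m H hm
    have h2 : failures A e m H ≤ m * (2 * H + 1) ^ (m * N - s' * (f + 1 - m)) := by
      have hpos : 0 < (2 * H + 1) ^ (s' * (f + 1 - m)) := by positivity
      refine Nat.le_of_mul_le_mul_right (h1.trans (le_of_eq ?_)) hpos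
      rw [mul_assoc, ← pow_add, Nat.sub_add_cancel hexp]
    rw [hS, Real.rpow_natCast]
    exact_mod_cast h2
  refine near_thin h (fun k => GoodTuple A e k) hS0 ?_ hθ0 hθ
  refine Pool.Agent.N671.DA.thin_of_nat (C₀ := m * 3 ^ S) hS0 fun T hT => ?_
  have hsub : toMat '' {v : Fin (m * N) → ℤ | (∀ t, |v t| ≤ (T : ℤ)) ∧ v ∈ {v : Fin (m * N) → ℤ | ¬ GoodTuple A e (toMat v)}} ⊆
      (((box m N T).filter fun k => ¬ GoodTuple A e k : Finset (Fin m → Fin N → ℤ)) : Set (Fin m → Fin N → ℤ)) := by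
    rintro _ ⟨v, ⟨hv1, hv2⟩, rfl⟩
    rw [Finset.mem_coe, Finset.mem_filter, box, Fintype.mem_piFinset]
    refine ⟨fun j => ?_, hv2⟩
    rw [Fintype.mem_piFinset]
    intro i
    exact Finset.mem_Icc.2 (abs_le.1 (hv1 _))
  have h2 := Set.ncard_le_ncard hsub (Finset.finite_toSet _)
  rw [Set.ncard_image_of_injective _ toMat_injective, Set.ncard_coe_finset] at h2
  have h3 : ((({v : Fin (m * N) → ℤ | (∀ t, |v t| ≤ (T : ℤ)) ∧
      v ∈ {v : Fin (m * N) → ℤ | ¬ GoodTuple A e (toMat v)}}.ncard : ℕ)) : ℝ) ≤ (failures A e m T : ℝ) := by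
    exact_mod_cast h2
  have hT1 : (1 : ℝ) ≤ T := by exact_mod_cast hT
  calc ((({v : Fin (m * N) → ℤ | (∀ t, |v t| ≤ (T : ℤ)) ∧
      v ∈ {v : Fin (m * N) → ℤ | ¬ GoodTuple A e (toMat v)}}.ncard : ℕ)) : ℝ) ≤ (failures A e m T : ℝ) := h3
    _ ≤ m * (2 * (T : ℝ) + 1) ^ S := hfail T
    _ ≤ m * (3 * (T : ℝ)) ^ S := by
        refine mul_le_mul_of_nonneg_left (Real.rpow_le_rpow (by positivity) (by linarith) hS0) (Nat.cast_nonneg m)
    _ = m * 3 ^ S * (T : ℝ) ^ S := by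
        rw [Real.mul_rpow (by norm_num) (Nat.cast_nonneg T)]
        ring

open Pool.Agent.Run7.h306.WA in
/-- the points generate over `ℚ_p` -/
theorem locPts_generates {n : ℕ} (A : AbVar n) (p : ℕ) [Fact p.Prime] {N : ℕ} (e : Fin N → A.Pts)
    (hg : Submodule.span ℚ (Set.range fun j => (1 : ℚ) ⊗ₜ[ℤ] e j) = ⊤) : Generates (A.loc p) (locPts A p e) := by
  let j : ℚ ⊗[ℤ] A.Pts →ₗ[ℚ] ℚ ⊗[ℤ] (A.loc p).Pts :=
    LinearMap.baseChange ℚ (A.pts p).toAddMonoidHom.toIntLinearMap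
  have hj : Function.Surjective j :=
    LinearMap.lTensor_surjective ℚ (g := (A.pts p).toAddMonoidHom.toIntLinearMap) (A.pts p).surjective
  unfold Generates
  have h1 : Submodule.map j (Submodule.span ℚ (Set.range fun i => (1 : ℚ) ⊗ₜ[ℤ] e i)) = ⊤ := by
    rw [hg, Submodule.map_top, LinearMap.range_eq_top.2 hj]
  rw [Submodule.map_span, ← Set.range_comp] at h1
  exact h1

end Run7.h469.PA
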